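import Pool.Agent.H110R3.Urn.Stmts

namespace Pool.Agent.H468R3.Urn.R1

open Pool.Agent.H110R3.Urn

theorem pp_half {α a b : ℝ} (hα : 0 < α) (ha : 0 < a) (hab : a ≤ b) : pp α a b ≤ 1 / 2 := by
  have h1 : a ^ α ≤ b ^ α := Real.rpow_le_rpow ha.le hab hα.le
  have h2 : 0 < a ^ α := Real.rpow_pos_of_pos ha α
  have h3 : 0 < a ^ α + b ^ α := by linarith
  unfold pp
  rw [div_le_iff₀ h3]
  linarith

theorem pp_nonneg {α a b : ℝ} (ha : 0 < a) (hb : 0 < b) : 0 ≤ pp α a b := by
  unfold pp
  have h2 : 0 < a ^ α := Real.rpow_pos_of_pos ha α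
  have h3 : 0 < b ^ α := Real.rpow_pos_of_pos hb α
  positivity

theorem ww_symm {α a b : ℝ} (ha : 0 < a) (hb : 0 < b) : ww α a b = ww α b a := by
  unfold ww pp
  have h2 : 0 < a ^ α := Real.rpow_pos_of_pos ha α
  have h3 : 0 < b ^ α := Real.rpow_pos_of_pos hb α
  have h4 : a ^ α + b ^ α ≠ 0 := by positivity
  have h5 : b ^ α + a ^ α ≠ 0 := by positivity
  field_simp
  ring

/-- an abstract version: symmetric weights `A`, positive weights `v`, a positive diagonal entry -/
theorem eig {m : ℕ} (A : Fin m → Fin m → ℝ) (v : Fin m → ℝ) (β : ℝ)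
    (hs : ∀ i j, A i j = A j i) (hv : ∀ i, 0 < v i) (i0 : Fin m)
    (hpos : 0 < -v i0 + β * (∑ k, A i0 k) - β * A i0 i0) :
    ∃ (μ : ℝ) (u : Fin m → ℝ), 0 < μ ∧ u ≠ 0 ∧ ∀ i, -(v i * u i) + β *
      (∑ j, A i j * (u i - u j)) = μ * (v i * u i) := by
  classical
  set H : Fin m → Fin m → ℝ := fun i j =>
    (if i = j then (-v i + β * ∑ k, A i k) else 0) - β * A i j with hH
  have hHs : ∀ i j, H i j = H j i := by
    intro i j
    simp only [hH]
    by_cases h : i = j
    · subst h; rfl
    · rw [if_neg h, if_neg (Ne.symm h), hs i j]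
  set N : Matrix (Fin m) (Fin m) ℝ := Matrix.of fun i j =>
    -(H i j) / (Real.sqrt (v i) * Real.sqrt (v j)) with hN
  have hNapp : ∀ i j, N i j = -(H i j) / (Real.sqrt (v i) * Real.sqrt (v j)) := fun _ _ => rfl
  have hsq : ∀ i, Real.sqrt (v i) * Real.sqrt (v i) = v i := fun i =>
    Real.mul_self_sqrt (hv i).le
  have hsp : ∀ i, 0 < Real.sqrt (v i) := fun i => Real.sqrt_pos.2 (hv i)
  have hNh : N.IsHermitian := by
    ext i j
    rw [Matrix.conjTranspose_apply, star_trivial, hNapp, hNapp, hHs j i,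
      mul_comm (Real.sqrt (v j))]
  have hex : ∃ k, hNh.eigenvalues k < 0 := by
    by_contra hcon
    push Not at hcon
    have h1 : N.PosSemidef := hNh.posSemidef_iff_eigenvalues_nonneg.2 (fun k => hcon k)
    have h2 := h1.diag_nonneg (i := i0)
    rw [hNapp, hsq] at h2
    have h3 : 0 < H i0 i0 := by
      simp only [hH, if_true]
      exact hpos
    have h4 : -(H i0 i0) / v i0 < 0 := div_neg_of_neg_of_pos (by linarith) (hv i0)
    linarith
  obtain ⟨k, hk⟩ := hex
  set y : Fin m → ℝ := fun i => (hNh.eigenvectorBasis k) i with hy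
  have hyeq : ∀ i, ∑ j, N i j * y j = hNh.eigenvalues k * y i := by
    intro i
    have := congrFun (hNh.mulVec_eigenvectorBasis k) i
    simpa [Matrix.mulVec, dotProduct] using this
  have hy0 : y ≠ 0 := by
    intro h
    have h1 : hNh.eigenvectorBasis k ≠ 0 := hNh.eigenvectorBasis.orthonormal.ne_zero k
    apply h1
    ext i
    exact congrFun h i
  refine ⟨-hNh.eigenvalues k, fun i => y i / Real.sqrt (v i), by linarith, ?_, ?_⟩
  · intro h
    apply hy0
    funext i
    have := congrFun h i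
    simp only [Pi.zero_apply, div_eq_zero_iff] at this
    rcases this with h | h
    · exact h
    · exact absurd h (hsp i).ne'
  · intro i
    set u : Fin m → ℝ := fun i => y i / Real.sqrt (v i) with hu
    have h1 : ∑ j, H i j * u j = -(v i * u i) + β * (∑ j, A i j * (u i - u j)) := by
      simp only [hH, sub_mul, ite_mul, zero_mul, Finset.sum_sub_distrib, Finset.sum_ite_eq,
        Finset.mem_univ, if_true, mul_sub]
      rw [← Finset.sum_mul]
      simp only [mul_assoc, ← Finset.mul_sum]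
      ring
    have h2 : ∑ j, H i j * u j = Real.sqrt (v i) * (-∑ j, N i j * y j) := by
      rw [← Finset.sum_neg_distrib, Finset.mul_sum]
      refine Finset.sum_congr rfl fun j _ => ?_
      rw [hNapp]
      simp only [hu]
      have := (hsp i).ne'
      have := (hsp j).ne'
      field_simp
    have h3 : v i * u i = Real.sqrt (v i) * y i := by
      simp only [hu]
      have h4 := (hsp i).ne'
      rw [mul_div_assoc', div_eq_iff h4]
      calc v i * y i = (Real.sqrt (v i) * Real.sqrt (v i)) * y i := by rw [hsq]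
        _ = Real.sqrt (v i) * y i * Real.sqrt (v i) := by ring
    rw [← h1, h2, hyeq, h3]
    ring

theorem taskR1 : TaskR1 := by
  intro m G _ hm hNE α v hα hE hv
  classical
  have hne : Nonempty (Fin m) := ⟨⟨0, hm⟩⟩
  obtain ⟨i0, hi0⟩ := Finite.exists_min v
  have hNEr : (0 : ℝ) < NE G := by exact_mod_cast hNE
  set A : Fin m → Fin m → ℝ := fun i j => if G.Adj i j then ww α (v i) (v j) else 0 with hA
  have hs : ∀ i j, A i j = A j i := by
    intro i j
    simp only [hA]
    rw [ww_symm (hv i) (hv j)]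
    simp only [G.adj_comm i j]
  have hsum : (NE G : ℝ) * v i0 / 2 ≤ ∑ k, A i0 k := by
    rw [← hE.2 i0]
    unfold fF
    rw [Finset.sum_div]
    refine Finset.sum_le_sum fun j _ => ?_
    simp only [hA]
    split_ifs with h
    · have h1 := pp_half (α := α) (by linarith) (hv i0) (hi0 j)
      have h2 := pp_nonneg (α := α) (hv i0) (hv j)
      unfold ww
      nlinarith
    · simp
  have hA0 : A i0 i0 = 0 := by
    simp only [hA]
    rw [if_neg (G.irrefl)]
  have hpos : 0 < -v i0 + (α / NE G) * (∑ k, A i0 k) - (α / NE G) * A i0 i0 := by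
    rw [hA0, mul_zero, sub_zero]
    have h1 : (α / NE G) * ((NE G : ℝ) * v i0 / 2) ≤ (α / NE G) * (∑ k, A i0 k) := by
      gcongr
    have h2 : (α / NE G) * ((NE G : ℝ) * v i0 / 2) = α * v i0 / 2 := by
      field_simp
    have h3 := hv i0
    nlinarith
  obtain ⟨μ, u, hμ, hu, h⟩ := eig A v (α / NE G) hs hv i0 hpos
  refine ⟨μ, u, hμ, hu, fun i => ?_⟩
  rw [← h i]
  congr 2
  refine Finset.sum_congr rfl fun j _ => ?_
  simp only [hA]
  split_ifs <;> simp

end Pool.Agent.H468R3.Urn.R1
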